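import Pool.Agent.helper59.NU.F1b

set_option autoImplicit false

/-! Module F1: a point and a basis with prescribed vanishing orders. -/

open MeasureTheory Filter Topology Set
open scoped ContDiff Manifold Matrix ENNReal ComplexOrder

noncomputable section

namespace Pool.Agent.helper63.NU.F1

variable {n : ℕ}

/-- linear independence on every open set -/
def Ind (U : Set (E n)) {k : ℕ} (g : Fin k → E n → ℂ) : Prop :=
  ∀ V ⊆ U, IsOpen V → V.Nonempty → ∀ c : Fin k → ℂ, (∀ y ∈ V, ∑ j, c j * g j y = 0) → c = 0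

theorem Ind.comp {U : Set (E n)} {k m : ℕ} {g : Fin k → E n → ℂ} (h : Ind U g)
    (f : Fin m → Fin k) (hf : Function.Injective f) : Ind U (fun j => g (f j)) := by
  intro V hVU hV hne c hc
  have hli : LinearIndependent ℂ (fun j => fun y : V => g j y) :=
    Fintype.linearIndependent_iff.2 fun c' h' => congrFun (h V hVU hV hne c'
      (fun y hy => by simpa using congrFun h' ⟨y, hy⟩))
  have := Fintype.linearIndependent_iff.1 (hli.comp f hf) c (by
    funext y
    simpa using hc y y.2)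
  exact funext this

theorem exists_det {U : Set (E n)} (hU : IsOpen U) {p : E n} (hp : p ∈ U) {N : ℕ}
    (b : Fin N → E n → ℂ) (hb : ∀ j, DifferentiableOn ℂ (b j) U) (hind : Ind U b) (k : ℕ)
    (hk : k ≤ N) : ∃ ℓ : Fin k → Ex n, (Mt (fun j => b (Fin.castLE hk j)) ℓ p).det ≠ 0 := by
  induction k with
  | zero => exact ⟨0, by simp⟩
  | succ k ih =>
    obtain ⟨ℓ, hℓ⟩ := ih (Nat.le_of_succ_le hk)
    by_contra hno
    push Not at hno
    set g : Fin (k + 1) → E n → ℂ := fun j => b (Fin.castLE hk j) with hg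
    set A := Mt g (Fin.snoc ℓ 0) p with hA
    set v : Fin (k + 1) → ℂ := fun j => A.adjugate j (Fin.last k) with hv
    have h1 : ∀ β : Ex n, ∑ j, v j * D β (g j) p = 0 := by
      intro β
      have h2 := hno (Function.update (Fin.snoc ℓ 0) (Fin.last k) β)
      rw [Mt_update, ← sum_adj] at h2
      rw [← h2]
      exact Finset.sum_congr rfl fun j _ => mul_comm _ _
    have hgd : ∀ j, DifferentiableOn ℂ (g j) U := fun j => hb _
    have hfd : DifferentiableOn ℂ (fun y => ∑ j, v j * g j y) U :=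
      DifferentiableOn.fun_sum fun j _ => (hgd j).const_mul (v j)
    have h3 : ∀ᶠ y in 𝓝 p, ∑ j, v j * g j y = 0 :=
      zero_near hU hfd hp fun β => by rw [D_sum hU hgd v β hp]; exact h1 β
    obtain ⟨V, hVs, hVo, hpV⟩ := mem_nhds_iff.1 (Filter.inter_mem h3 (hU.mem_nhds hp))
    have h4 : v = 0 := (hind.comp (Fin.castLE hk) (Fin.castLE_injective hk)) V
      (fun y hy => (hVs hy).2) hVo ⟨p, hpV⟩ v fun y hy => (hVs hy).1
    have h5 : v (Fin.last k) = 0 := congrFun h4 _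
    rw [hv] at h5
    simp only [Matrix.adjugate_apply] at h5
    rw [Matrix.det_succ_row _ (Fin.last k)] at h5
    rw [Finset.sum_eq_single (Fin.last k)] at h5
    · rw [Matrix.updateRow_self, Pi.single_eq_same] at h5
      have h6 : (-1 : ℂ) ^ ((Fin.last k : ℕ) + (Fin.last k : ℕ)) = 1 := by
        rw [← two_mul]; simp
      rw [h6, one_mul, one_mul] at h5
      apply hℓ
      rw [← h5]
      congr 1
      ext i j
      simp [hA, Mt, hg, Fin.succAbove_last]
    · intro j _ hj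
      rw [Matrix.updateRow_self, Pi.single_eq_of_ne hj]
      simp
    · intro h
      exact absurd (Finset.mem_univ _) h

theorem exists_min {U : Set (E n)} (hU : IsOpen U) (hne : U.Nonempty) {N : ℕ}
    (b : Fin N → E n → ℂ) (hb : ∀ j, DifferentiableOn ℂ (b j) U) (hind : Ind U b) :
    ∃ B : ℕ, ∃ p ∈ U, ∃ L : ∀ k, Fin k → Ex n,
      ∀ᶠ q in 𝓝 p, ∀ k (hk : k ≤ N), MinAt B (fun j => b (Fin.castLE hk j)) (L k) q := by
  classical
  obtain ⟨p0, hp0⟩ := hne
  choose ℓ0 hℓ0 using fun k (hk : k ≤ N) => exists_det hU hp0 b hb hind k hk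
  set L0 : ∀ k, Fin k → Ex n := fun k => if hk : k ≤ N then ℓ0 k hk else 0 with hL0
  set B := 1 + ∑ k ∈ Finset.range (N + 1), ∑ i, deg (L0 k i) with hB
  have hL0d : ∀ k, k ≤ N → ∀ i, deg (L0 k i) < B := by
    intro k hk i
    have h1 : deg (L0 k i) ≤ ∑ i, deg (L0 k i) :=
      Finset.single_le_sum (f := fun i => deg (L0 k i)) (fun _ _ => Nat.zero_le _)
        (Finset.mem_univ i)
    have h2 : ∑ i, deg (L0 k i) ≤ ∑ k ∈ Finset.range (N + 1), ∑ i, deg (L0 k i) :=
      Finset.single_le_sum (f := fun k => ∑ i, deg (L0 k i)) (fun _ _ => Nat.zero_le _)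
        (Finset.mem_range.2 (Nat.lt_succ_iff.2 hk))
    omega
  set Φ : (∀ k, Fin k → Ex n) → ℕ := fun L => ∑ k ∈ Finset.range (N + 1), ∑ i, w B (L k i)
    with hΦ
  let P : ℕ → Prop := fun m => ∃ p ∈ U, ∃ L : ∀ k, Fin k → Ex n,
    (∀ k, k ≤ N → ∀ i, deg (L k i) < B) ∧
    (∀ k (hk : k ≤ N), (Mt (fun j => b (Fin.castLE hk j)) (L k) p).det ≠ 0) ∧ Φ L = m
  have hP : ∃ m, P m := by
    refine ⟨Φ L0, p0, hp0, L0, hL0d, ?_, rfl⟩
    intro k hk
    have : L0 k = ℓ0 k hk := by rw [hL0]; simp [hk]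
    rw [this]
    exact hℓ0 k hk
  obtain ⟨p, hp, L, hLd, hLdet, hLΦ⟩ := Nat.find_spec hP
  refine ⟨B, p, hp, L, ?_⟩
  have hev : ∀ᶠ q in 𝓝 p, ∀ k : Fin (N + 1),
      (Mt (fun j => b (Fin.castLE (Nat.lt_succ_iff.1 k.2) j)) (L k) q).det ≠ 0 := by
    rw [Filter.eventually_all]
    intro k
    have hc : ContinuousAt (fun q =>
        (Mt (fun j => b (Fin.castLE (Nat.lt_succ_iff.1 k.2) j)) (L k) q).det) p :=
      ((diff_Mt hU (fun j => hb _) (L k) p hp).differentiableAt (hU.mem_nhds hp)).continuousAt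
    exact hc.eventually_ne (hLdet k _)
  filter_upwards [hev, hU.mem_nhds hp] with q hq hqU k hk
  have hqdet : ∀ k (hk : k ≤ N), (Mt (fun j => b (Fin.castLE hk j)) (L k) q).det ≠ 0 :=
    fun k hk => hq ⟨k, Nat.lt_succ_iff.2 hk⟩
  refine ⟨hqdet k hk, hLd k hk, fun ℓ' hd' hdet' => ?_⟩
  by_contra hlt
  push Not at hlt
  set L' : ∀ k, Fin k → Ex n := Function.update L k ℓ' with hL'
  have hkk : L' k = ℓ' := by rw [hL']; exact Function.update_self _ _ _
  have hkn : ∀ k', k' ≠ k → L' k' = L k' := fun k' h => by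
    rw [hL']; exact Function.update_of_ne h _ _
  have hΦlt : Φ L' < Φ L := by
    refine Finset.sum_lt_sum (fun k' _ => ?_) ⟨k, Finset.mem_range.2 (Nat.lt_succ_iff.2 hk), ?_⟩
    · by_cases h : k' = k
      · subst h; rw [hkk]; exact hlt.le
      · rw [hkn k' h]
    · rw [hkk]; exact hlt
  refine Nat.find_min hP (m := Φ L') (by rw [← hLΦ]; exact hΦlt) ⟨q, hqU, L', ?_, ?_, rfl⟩
  · intro k' hk' i
    by_cases h : k' = k
    · subst h; rw [hkk]; exact hd' i
    · rw [hkn k' h]; exact hLd k' hk' i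
  · intro k' hk'
    by_cases h : k' = k
    · subst h; rw [hkk]; exact hdet'
    · rw [hkn k' h]; exact hqdet k' hk'

theorem sum_castLE {m N : ℕ} (h : m ≤ N) (f : Fin N → ℂ)
    (hf : ∀ j : Fin N, m ≤ j → f j = 0) : ∑ j, f j = ∑ j : Fin m, f (Fin.castLE h j) := by
  obtain ⟨d, rfl⟩ := Nat.exists_eq_add_of_le h
  rw [Fin.sum_univ_add]
  have : ∑ i : Fin d, f (Fin.natAdd m i) = 0 :=
    Finset.sum_eq_zero fun i _ => hf _ (by simp)
  rw [this, add_zero]
  rfl

theorem Mt_inj {k : ℕ} {g : Fin k → E n → ℂ} {ℓ : Fin k → Ex n} {q : E n}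
    (h : (Mt g ℓ q).det ≠ 0) : Function.Injective ℓ := by
  intro i j hij
  by_contra hne
  exact h (Matrix.det_zero_of_row_eq hne (by funext c; simp [Mt, hij]))

theorem core {U : Set (E n)} (hU : IsOpen U) (hne : U.Nonempty) {N : ℕ}
    (b : Fin N → E n → ℂ) (hb : ∀ j, DifferentiableOn ℂ (b j) U) (hind : Ind U b) :
    ∃ p ∈ U, ∃ (C : Matrix (Fin N) (Fin N) ℂ) (α : Fin N → Ex n), IsUnit C.det ∧
      Function.Injective α ∧ (∀ i β, β ≤ α i → ∃ j ≤ i, α j = β) ∧
      (∀ i j, C i j ≠ 0 → j ≤ i) ∧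
      (∀ i, ∃ K : ℝ, ∀ᶠ y in 𝓝 p, ‖∑ j, C i j * b j y‖ ≤ K * ‖y - p‖ ^ (∑ a, α i a)) ∧
      ∃ B : ℕ, (∀ i, deg (α i) < B) ∧
        (∀ i (β : Ex n), w B β < w B (α i) → ∑ j, C i j * D β (b j) p = 0) ∧
        ∀ i, ∑ j, C i j * D (α i) (b j) p ≠ 0 := by
  classical
  obtain ⟨B, p, hp, L, hmin⟩ := exists_min hU hne b hb hind
  refine ⟨p, hp, ?_⟩
  have hm : ∀ k (hk : k ≤ N), MinAt B (fun j => b (Fin.castLE hk j)) (L k) p :=
    hmin.self_of_nhds
  set S : ℕ → Finset (Ex n) := fun k => Finset.univ.image (L k) with hS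
  have hScard : ∀ k, k ≤ N → (S k).card = k := fun k hk => by
    rw [hS]
    simp only
    rw [Finset.card_image_of_injective _ (Mt_inj (hm k hk).det)]
    simp
  have hSsub : ∀ k, k + 1 ≤ N → S k ⊆ S (k + 1) := by
    intro k hk β hβ
    obtain ⟨i, -, hi⟩ := Finset.mem_image.1 hβ
    obtain ⟨i', hi'⟩ := factC (g' := fun j => b (Fin.castLE hk j)) (hm k (Nat.le_of_succ_le hk))
      (hm (k + 1) hk) i
    exact Finset.mem_image.2 ⟨i', Finset.mem_univ _, by rw [hi', hi]⟩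
  have hone : ∀ k : Fin N, ∃ α, S (k + 1) \ S k = {α} := by
    intro k
    rw [← Finset.card_eq_one, Finset.card_sdiff_of_subset (hSsub k k.2), hScard _ k.2,
      hScard _ k.2.le]
    omega
  choose α hα using hone
  have hα1 : ∀ k : Fin N, α k ∈ S (k + 1) ∧ α k ∉ S k := fun k => by
    have : α k ∈ S (k + 1) \ S k := by rw [hα]; exact Finset.mem_singleton_self _
    simpa using this
  have hα2 : ∀ (k : Fin N) (β : Ex n), β ∈ S (k + 1) → β ∉ S k → β = α k := fun k β h1 h2 => by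
    have : β ∈ S (k + 1) \ S k := Finset.mem_sdiff.2 ⟨h1, h2⟩
    rw [hα] at this
    exact Finset.mem_singleton.1 this
  have hmem : ∀ k, k ≤ N → ∀ β, β ∈ S k ↔ ∃ j : Fin N, (j : ℕ) < k ∧ α j = β := by
    intro k
    induction k with
    | zero =>
      intro _ β
      constructor
      · intro h
        obtain ⟨i, -, -⟩ := Finset.mem_image.1 h
        exact i.elim0
      · rintro ⟨j, hj, -⟩
        omega
    | succ k ih =>
      intro hk β
      constructor
      · intro h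
        by_cases h2 : β ∈ S k
        · obtain ⟨j, hj, e⟩ := (ih (Nat.le_of_succ_le hk) β).1 h2
          exact ⟨j, by omega, e⟩
        · exact ⟨⟨k, hk⟩, by simp, (hα2 ⟨k, hk⟩ β h h2).symm⟩
      · rintro ⟨j, hj, e⟩
        rcases Nat.lt_succ_iff_lt_or_eq.1 hj with h | h
        · exact hSsub k hk ((ih (Nat.le_of_succ_le hk) β).2 ⟨j, h, e⟩)
        · have := (hα1 j).1
          rw [e, h] at this
          exact this
  have hαlt : ∀ i j : Fin N, i < j → α i ≠ α j := by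
    intro i j hij e
    exact (hα1 j).2 ((hmem j j.2.le _).2 ⟨i, hij, e⟩)
  have hαinj : Function.Injective α := by
    intro i j e
    rcases lt_trichotomy i j with h | h | h
    · exact absurd e (hαlt i j h)
    · exact h
    · exact absurd e.symm (hαlt j i h)
  have hix : ∀ k : Fin N, ∃ i, L (k + 1) i = α k := fun k => by
    obtain ⟨i, -, hi⟩ := Finset.mem_image.1 (hα1 k).1
    exact ⟨i, hi⟩
  choose ix hix using hix
  set C : Matrix (Fin N) (Fin N) ℂ := Matrix.of fun (k j : Fin N) => if h : (j : ℕ) < k + 1 then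
    (Mt (fun j => b (Fin.castLE k.2 j)) (L (k + 1)) p).adjugate ⟨j, h⟩ (ix k) else 0 with hC
  have hCsum : ∀ (k : Fin N) (x : Fin N → ℂ), ∑ j, C k j * x j = ∑ j : Fin (k + 1),
      x (Fin.castLE k.2 j) *
        (Mt (fun j => b (Fin.castLE k.2 j)) (L (k + 1)) p).adjugate j (ix k) := by
    intro k x
    rw [sum_castLE (m := k + 1) k.2 (fun j => C k j * x j) (fun j hj => ?_)]
    · refine Finset.sum_congr rfl fun j _ => ?_
      have hj : ((Fin.castLE k.2 j : Fin N) : ℕ) < k + 1 := j.2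
      have : C k (Fin.castLE k.2 j)
          = (Mt (fun j => b (Fin.castLE k.2 j)) (L (k + 1)) p).adjugate j (ix k) := by
        rw [hC, Matrix.of_apply, dif_pos hj]
        rfl
      rw [this, mul_comm]
    · have : C k j = 0 := by
        rw [hC, Matrix.of_apply, dif_neg (by omega)]
      simp [this]
  have hdiag : ∀ k : Fin N, ∑ j, C k j * D (α k) (b j) p ≠ 0 := by
    intro k
    rw [hCsum k (fun j => D (α k) (b j) p), ← hix k,
      factA'' (fun j => b (Fin.castLE k.2 j)) (L (k + 1)) p (ix k)]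
    exact (hm (k + 1) k.2).det
  have hlow : ∀ k i : Fin N, i < k → ∑ j, C k j * D (α i) (b j) p = 0 := by
    intro k i hik
    have h1 : α i ∈ S (k + 1) := (hmem (k + 1) k.2 _).2 ⟨i, by
      have : (i : ℕ) < k := hik
      omega, rfl⟩
    obtain ⟨i', -, hi'⟩ := Finset.mem_image.1 h1
    have hne' : i' ≠ ix k := by
      intro e
      rw [e, hix k] at hi'
      exact hαlt i k hik hi'.symm
    rw [hCsum k (fun j => D (α i) (b j) p), ← hi',
      factA' (fun j => b (Fin.castLE k.2 j)) (L (k + 1)) p hne']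
  have hdB : ∀ i : Fin N, deg (α i) < B := fun i => by
    rw [← hix i]; exact (hm (i + 1) i.2).dg _
  have hA : ∀ (i : Fin N) (β : Ex n), w B β < w B (α i) → ∑ j, C i j * D β (b j) p = 0 := by
    intro i β hβ
    rw [hCsum i (fun j => D β (b j) p)]
    refine factA (hm (i + 1) i.2) ?_
    rw [hix i]
    exact hβ
  refine ⟨C, α, ?_, hαinj, ?_, ?_, ?_, B, hdB, hA, hdiag⟩
  · rw [isUnit_iff_ne_zero]
    set R : Matrix (Fin N) (Fin N) ℂ := Matrix.of fun j i => D (α i) (b j) p with hR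
    have hCR : ∀ k i, (C * R) k i = ∑ j, C k j * D (α i) (b j) p := fun k i => by
      rw [Matrix.mul_apply]; rfl
    have htri : (C * R).IsUpperTriangular := by
      intro k i hik
      rw [hCR]
      exact hlow k i hik
    have h1 : (C * R).det ≠ 0 := by
      rw [Matrix.det_of_isUpperTriangular htri]
      exact Finset.prod_ne_zero_iff.2 fun k _ => by rw [hCR]; exact hdiag k
    rw [Matrix.det_mul] at h1
    exact left_ne_zero_of_mul h1
  · intro i β hβ
    obtain ⟨i'', hi''⟩ := ideal hU (g := fun j => b (Fin.castLE i.2 j)) (fun j => hb _) hp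
      (hmin.mono fun q hq => hq (i + 1) i.2) β (deg (α i) - deg β) (ix i) (by
        rw [hix]
        have : deg β ≤ deg (α i) := Finset.sum_le_sum fun a _ => hβ a
        omega) (by rw [hix]; exact hβ)
    obtain ⟨j, hj, e⟩ := (hmem (i + 1) i.2 β).1 (Finset.mem_image.2 ⟨i'', Finset.mem_univ _, hi''⟩)
    exact ⟨j, Fin.le_def.2 (Nat.lt_succ_iff.1 hj), e⟩
  · intro i j h
    by_contra hlt
    apply h
    rw [hC, Matrix.of_apply, dif_neg]
    have : (i : ℕ) < j := Fin.lt_def.1 (not_le.1 hlt)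
    omega
  · intro i
    have hfd : DifferentiableOn ℂ (fun y => ∑ j, C i j * b j y) U :=
      DifferentiableOn.fun_sum fun j _ => (hb j).const_mul (C i j)
    refine vanish hU hfd hp (∑ a, α i a) fun β hβ => ?_
    rw [D_sum hU hb (C i) β hp]
    exact hA i β (w_lt hβ (lt_trans hβ (hdB i)))

/-- Cauchy estimate: a bound of order `m + 1` for `f` gives a bound of order `m` for `∂_a f`. -/
theorem cauchy {U : Set (E n)} (hU : IsOpen U) {f : E n → ℂ} (hf : DifferentiableOn ℂ f U)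
    {p : E n} (hp : p ∈ U) (m : ℕ) (h : ∃ K : ℝ, ∀ᶠ y in 𝓝 p, ‖f y‖ ≤ K * ‖y - p‖ ^ (m + 1))
    (a : Fin n) : ∃ K : ℝ, ∀ᶠ y in 𝓝 p, ‖dz a f y‖ ≤ K * ‖y - p‖ ^ m := by
  obtain ⟨K, hK⟩ := h
  obtain ⟨r, hr, hball⟩ := Metric.mem_nhds_iff.1 (Filter.inter_mem hK (hU.mem_nhds hp))
  have hK0 : ∀ y ∈ Metric.ball p r, ‖f y‖ ≤ |K| * ‖y - p‖ ^ (m + 1) := fun y hy =>
    (hball hy).1.trans (mul_le_mul_of_nonneg_right (le_abs_self K) (by positivity))
  have hpunct : ∀ y ∈ Metric.ball p (r / 3), y ≠ p →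
      ‖dz a f y‖ ≤ |K| * 2 ^ (m + 1) * ‖y - p‖ ^ m := by
    intro y hy hne
    have hd : 0 < ‖y - p‖ := norm_pos_iff.2 (sub_ne_zero.2 hne)
    have hyr : ‖y - p‖ < r / 3 := by rwa [Metric.mem_ball, dist_eq_norm] at hy
    have hsub : ∀ t : ℂ, ‖t‖ ≤ ‖y - p‖ → y + t • (Pi.single a (1 : ℂ) : E n) ∈ Metric.ball p r ∧
        ‖y + t • (Pi.single a (1 : ℂ) : E n) - p‖ ≤ 2 * ‖y - p‖ := by
      intro t ht
      have h1 : ‖t • (Pi.single a (1 : ℂ) : E n)‖ ≤ ‖y - p‖ := by
        rw [norm_smul, Pi.norm_single, norm_one, mul_one]; exact ht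
      have h2 : ‖y + t • (Pi.single a (1 : ℂ) : E n) - p‖ ≤ 2 * ‖y - p‖ := by
        calc ‖y + t • (Pi.single a (1 : ℂ) : E n) - p‖
            = ‖(y - p) + t • (Pi.single a (1 : ℂ) : E n)‖ := by congr 1; abel
          _ ≤ ‖y - p‖ + ‖t • (Pi.single a (1 : ℂ) : E n)‖ := norm_add_le _ _
          _ ≤ 2 * ‖y - p‖ := by linarith
      refine ⟨?_, h2⟩
      rw [Metric.mem_ball, dist_eq_norm]
      linarith
    have hdiff : ∀ t : ℂ, ‖t‖ ≤ ‖y - p‖ → DifferentiableAt ℂ
        (fun t : ℂ => f (y + t • (Pi.single a (1 : ℂ) : E n))) t := by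
      intro t ht
      have h3 : DifferentiableAt ℂ f (y + t • (Pi.single a (1 : ℂ) : E n)) :=
        (hf _ (hball (hsub t ht).1).2).differentiableAt (hU.mem_nhds (hball (hsub t ht).1).2)
      have h4 : DifferentiableAt ℂ (fun t : ℂ => y + t • (Pi.single a (1 : ℂ) : E n)) t := by
        fun_prop
      exact h3.comp t h4
    have hder : deriv (fun t : ℂ => f (y + t • (Pi.single a (1 : ℂ) : E n))) 0 = dz a f y := by
      have hyU : y ∈ U := by
        have := (hball (hsub 0 (by simp)).1).2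
        simpa using this
      have hfy : DifferentiableAt ℂ f y := (hf y hyU).differentiableAt (hU.mem_nhds hyU)
      rw [dz_hol hfy a]
      have h3 : HasFDerivAt f (fderiv ℂ f y) (y + (0 : ℂ) • (Pi.single a (1 : ℂ) : E n)) := by
        rw [zero_smul, add_zero]; exact hfy.hasFDerivAt
      have h4 : HasDerivAt (fun t : ℂ => y + t • (Pi.single a (1 : ℂ) : E n))
          (Pi.single a (1 : ℂ) : E n) 0 := by
        have := ((hasDerivAt_id (0 : ℂ)).smul_const (Pi.single a (1 : ℂ) : E n)).const_add y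
        simpa using this
      exact (h3.comp_hasDerivAt 0 h4).deriv
    have h5 := Complex.norm_deriv_le_of_forall_mem_sphere_norm_le (c := (0 : ℂ)) (R := ‖y - p‖)
      (C := |K| * (2 * ‖y - p‖) ^ (m + 1))
      (f := fun t : ℂ => f (y + t • (Pi.single a (1 : ℂ) : E n))) hd ?_ ?_
    · rw [hder] at h5
      refine h5.trans (le_of_eq ?_)
      rw [mul_pow, pow_succ ‖y - p‖]
      field_simp
    · refine DifferentiableOn.diffContOnCl ?_
      rw [closure_ball _ hd.ne']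
      intro t ht
      exact (hdiff t (by simpa using ht)).differentiableWithinAt
    · intro t ht
      have ht' : ‖t‖ = ‖y - p‖ := by simpa using ht
      refine (hK0 _ (hsub t ht'.le).1).trans ?_
      exact mul_le_mul_of_nonneg_left (pow_le_pow_left₀ (norm_nonneg _) (hsub t ht'.le).2 _)
        (abs_nonneg _)
  refine ⟨|K| * 2 ^ (m + 1), ?_⟩
  have hmem : Metric.ball p (r / 3) ∈ 𝓝 p := Metric.ball_mem_nhds p (by positivity)
  filter_upwards [hmem] with y hy
  by_cases hyp : y = p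
  · subst hyp
    have : Nonempty (Fin n) := ⟨a⟩
    have hcont : ContinuousAt (dz a f) y :=
      ((dz_holo hU hf a y hp).differentiableAt (hU.mem_nhds hp)).continuousAt
    have hc2 : ContinuousAt (fun z => |K| * 2 ^ (m + 1) * ‖z - y‖ ^ m) y := by fun_prop
    have hev : ∀ᶠ z in 𝓝[≠] y, ‖dz a f z‖ ≤ |K| * 2 ^ (m + 1) * ‖z - y‖ ^ m := by
      filter_upwards [mem_nhdsWithin_of_mem_nhds hmem, self_mem_nhdsWithin] with z hz hz2
      exact hpunct z hz hz2
    exact le_of_tendsto_of_tendsto (hcont.norm.mono_left nhdsWithin_le_nhds)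
      (hc2.mono_left nhdsWithin_le_nhds) hev
  · exact hpunct y hy hyp

theorem PD_bound {U : Set (E n)} (hU : IsOpen U) {f : E n → ℂ} (hf : DifferentiableOn ℂ f U)
    {p : E n} (hp : p ∈ U) (l : List (Fin n)) : ∀ (m : ℕ), l.length ≤ m →
    (∃ K : ℝ, ∀ᶠ y in 𝓝 p, ‖f y‖ ≤ K * ‖y - p‖ ^ m) →
    ∃ K : ℝ, ∀ᶠ y in 𝓝 p, ‖PD l f y‖ ≤ K * ‖y - p‖ ^ (m - l.length) := by
  induction l with
  | nil => intro m _ h; exact h
  | cons a l ih =>
    intro m hm h
    rw [List.length_cons] at hm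
    have h1 := ih m (by omega) h
    have e : m - l.length = (m - (a :: l).length) + 1 := by rw [List.length_cons]; omega
    rw [e] at h1
    exact cauchy hU (PD_holo hU hf l) hp _ h1 a

theorem D_zero_of_bound {U : Set (E n)} (hU : IsOpen U) {f : E n → ℂ}
    (hf : DifferentiableOn ℂ f U) {p : E n} (hp : p ∈ U) {m : ℕ}
    (h : ∃ K : ℝ, ∀ᶠ y in 𝓝 p, ‖f y‖ ≤ K * ‖y - p‖ ^ m) {β : Ex n} (hβ : deg β < m) :
    D β f p = 0 := by
  have hlen : (lst β).length = deg β := by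
    rw [← sum_count]
    unfold deg
    exact Finset.sum_congr rfl fun a _ => count_lst β a
  obtain ⟨K, hK⟩ := PD_bound hU hf hp (lst β) m (by omega) h
  have h1 := hK.self_of_nhds
  rw [sub_self, norm_zero, zero_pow (by omega), mul_zero] at h1
  exact norm_le_zero_iff.1 h1

end Pool.Agent.helper63.NU.F1

namespace Pool.Agent.helper63.NU

open F1 in
theorem jets2 {n N : ℕ} {U : Set (E n)} (hU : IsOpen U) (hne : U.Nonempty) (b : Fin N → E n → ℂ)
    (hb : ∀ j, DifferentiableOn ℂ (b j) U)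
    (hind : ∀ V ⊆ U, IsOpen V → V.Nonempty → ∀ c : Fin N → ℂ, (∀ y ∈ V, ∑ j, c j * b j y = 0) →
      c = 0) (lam : Fin N → ℝ) :
    ∃ p ∈ U, ∃ (C : Matrix (Fin N) (Fin N) ℂ) (σ : Equiv.Perm (Fin N))
      (α : Fin N → Fin n → ℕ), IsUnit C.det ∧ Function.Injective α ∧
      (∀ i β, β ≤ α i → ∃ j, α j = β) ∧ (∀ i j, C i j ≠ 0 → lam (σ i) ≤ lam j) ∧
      (∀ i j, α i ≤ α j → lam (σ j) ≤ lam (σ i)) ∧
      (∀ i, ∃ K : ℝ, ∀ᶠ y in 𝓝 p, ‖∑ j, C i j * b j y‖ ≤ K * ‖y - p‖ ^ (∑ a, α i a)) ∧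
      ∀ (c : Fin N → ℂ) (m : ℕ),
        (∃ K : ℝ, ∀ᶠ y in 𝓝 p, ‖∑ i, c i * ∑ j, C i j * b j y‖ ≤ K * ‖y - p‖ ^ m) →
        ∀ i, (∑ a, α i a) < m → c i = 0 := by
  classical
  set τ : Equiv.Perm (Fin N) := Tuple.sort (fun i => -lam i) with hτ
  have hmono : Antitone (lam ∘ τ) := by
    intro i j hij
    have := Tuple.monotone_sort (fun i => -lam i) hij
    simpa using this
  obtain ⟨p, hp, C, α, hdet, hinj, hideal, htri, hvan, B, hdB, hA, hdiag⟩ :=
    F1.core hU hne (fun j => b (τ j))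
    (fun j => hb _) (F1.Ind.comp (U := U) (g := b) hind τ τ.injective)
  have hre : ∀ i y, ∑ j, C.submatrix id τ.symm i j * b j y = ∑ j, C i j * b (τ j) y := by
    intro i y
    rw [← Equiv.sum_comp τ]
    simp
  refine ⟨p, hp, C.submatrix id τ.symm, τ, α, ?_, hinj, ?_, ?_, ?_, ?_, ?_⟩
  · rw [Matrix.det_permute']
    refine IsUnit.mul ?_ hdet
    exact (Units.isUnit (Equiv.Perm.sign τ.symm)).map (Int.castRingHom ℂ)
  · intro i β hβ
    obtain ⟨j, -, e⟩ := hideal i β hβ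
    exact ⟨j, e⟩
  · intro i j h
    have h1 := htri i (τ.symm j) h
    have := hmono h1
    simpa using this
  · intro i j h
    obtain ⟨j', hj', e⟩ := hideal j (α i) h
    have := hinj e
    subst this
    exact hmono hj'
  · intro i
    obtain ⟨K, hK⟩ := hvan i
    refine ⟨K, hK.mono fun y hy => ?_⟩
    rw [hre]
    exact hy
  · intro c m hc i him
    simp_rw [hre] at hc
    have hfd : DifferentiableOn ℂ (fun y => ∑ j, (∑ i, c i * C i j) * b (τ j) y) U :=
      DifferentiableOn.fun_sum fun j _ => (hb (τ j)).const_mul _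
    have hswap : ∀ x : Fin N → ℂ, ∑ j, (∑ i, c i * C i j) * x j = ∑ i, c i * ∑ j, C i j * x j := by
      intro x
      simp_rw [Finset.sum_mul, Finset.mul_sum]
      rw [Finset.sum_comm]
      simp_rw [mul_assoc]
    have hc' : ∃ K : ℝ, ∀ᶠ y in 𝓝 p,
        ‖∑ j, (∑ i, c i * C i j) * b (τ j) y‖ ≤ K * ‖y - p‖ ^ m := by
      obtain ⟨K, hK⟩ := hc
      exact ⟨K, hK.mono fun y hy => by rw [hswap (fun j => b (τ j) y)]; exact hy⟩
    have hD : ∀ β : Ex n, deg β < m → ∑ i, c i * ∑ j, C i j * D β (b (τ j)) p = 0 := by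
      intro β hβ
      have h1 := D_zero_of_bound hU hfd hp hc' hβ
      rw [D_sum hU (fun j => hb (τ j)) (fun j => ∑ i, c i * C i j) β hp] at h1
      rw [← hswap (fun j => D β (b (τ j)) p)]
      exact h1
    by_contra hci
    have hSne : (Finset.univ.filter fun i : Fin N => deg (α i) < m ∧ c i ≠ 0).Nonempty :=
      ⟨i, Finset.mem_filter.2 ⟨Finset.mem_univ _, him, hci⟩⟩
    obtain ⟨i0, hi0, hmin⟩ := Finset.exists_min_image _ (fun i => w B (α i)) hSne
    obtain ⟨-, hi0m, hi0c⟩ := Finset.mem_filter.1 hi0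
    have h1 := hD (α i0) hi0m
    rw [Finset.sum_eq_single i0] at h1
    · rcases mul_eq_zero.1 h1 with h2 | h2
      · exact hi0c h2
      · exact hdiag i0 h2
    · intro j _ hj
      by_cases hcj : c j = 0
      · rw [hcj, zero_mul]
      · rw [hA j (α i0), mul_zero]
        by_cases hjm : deg (α j) < m
        · have h3 := hmin j (Finset.mem_filter.2 ⟨Finset.mem_univ _, hjm, hcj⟩)
          refine lt_of_le_of_ne h3 fun h4 => hj ?_
          exact (hinj (w_inj (hdB i0) (hdB j) h4)).symm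
        · exact w_lt (by omega) (hdB i0)
    · intro h; exact absurd (Finset.mem_univ _) h

theorem jets {n N : ℕ} {U : Set (E n)} (hU : IsOpen U) (hne : U.Nonempty) (b : Fin N → E n → ℂ)
    (hb : ∀ j, DifferentiableOn ℂ (b j) U)
    (hind : ∀ V ⊆ U, IsOpen V → V.Nonempty → ∀ c : Fin N → ℂ, (∀ y ∈ V, ∑ j, c j * b j y = 0) →
      c = 0) (lam : Fin N → ℝ) :
    ∃ p ∈ U, ∃ (C : Matrix (Fin N) (Fin N) ℂ) (σ : Equiv.Perm (Fin N))
      (α : Fin N → Fin n → ℕ), IsUnit C.det ∧ Function.Injective α ∧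
      (∀ i β, β ≤ α i → ∃ j, α j = β) ∧ (∀ i j, C i j ≠ 0 → lam (σ i) ≤ lam j) ∧
      (∀ i j, α i ≤ α j → lam (σ j) ≤ lam (σ i)) ∧
      ∀ i, ∃ K : ℝ, ∀ᶠ y in 𝓝 p, ‖∑ j, C i j * b j y‖ ≤ K * ‖y - p‖ ^ (∑ a, α i a) := by
  obtain ⟨p, hp, C, σ, α, h1, h2, h3, h4, h5, h6, -⟩ := jets2 hU hne b hb hind lam
  exact ⟨p, hp, C, σ, α, h1, h2, h3, h4, h5, h6⟩

end Pool.Agent.helper63.NU
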