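import Pool.Agent.helper83.NU.P11
import Pool.Agent.helper80.NU.B4

set_option autoImplicit false
set_option linter.all false

/-! Module P12: the Fubini–Study metric is a Kähler metric in the anticanonical class. -/

open MeasureTheory Filter Topology Set
open scoped ContDiff Manifold Matrix ENNReal ComplexOrder

noncomputable section

namespace Pool.Agent.helper63.NU

variable {n : ℕ}

namespace P12

/-- `log (1 + |y|²)` -/
abbrev F (n : ℕ) : E n → ℝ := fun z => Real.log (1 + ∑ j, ‖z j‖ ^ 2)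

theorem s_pos (y : E n) : 0 < 1 + ∑ j, ‖y j‖ ^ 2 := by positivity

theorem smooth_s : ContDiff ℝ ∞ (fun z : E n => 1 + ∑ j, ‖z j‖ ^ 2) := by
  refine contDiff_const.add (ContDiff.sum fun j _ => ?_)
  exact (contDiff_apply ℝ ℂ j).norm_sq ℝ

theorem smoothF : ContDiff ℝ ∞ (F n) := smooth_s.log fun y => (s_pos y).ne'

theorem sum_Z (i : Fin (n + 1)) (y : E n) :
    ∑ l, ‖(i.insertNth 1 y : E (n + 1)) l‖ ^ 2 = 1 + ∑ j, ‖y j‖ ^ 2 := by
  rw [Fin.sum_univ_succAbove _ i]
  simp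

theorem sum_trans (i i' : Fin (n + 1)) (y : E n) (h : (i.insertNth 1 y : E (n + 1)) i' ≠ 0) :
    1 + ∑ j, ‖CP.chart i' ((CP.chart i).symm y) j‖ ^ 2
      = (1 + ∑ j, ‖y j‖ ^ 2) / ‖(i.insertNth 1 y : E (n + 1)) i'‖ ^ 2 := by
  have h1 : ‖(i.insertNth 1 y : E (n + 1)) i'‖ ^ 2 ≠ 0 := by positivity
  rw [← sum_Z i y, Fin.sum_univ_succAbove _ i', add_div, div_self h1, Finset.sum_div]
  congr 1
  refine Finset.sum_congr rfl fun j _ => ?_
  rw [CP.chart_trans i i' y h, norm_div, div_pow]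

theorem F_trans (i i' : Fin (n + 1)) (y : E n) (h : (i.insertNth 1 y : E (n + 1)) i' ≠ 0) :
    F n y = F n (CP.chart i' ((CP.chart i).symm y)) +
      Real.log (‖(i.insertNth 1 y : E (n + 1)) i'‖ ^ 2) := by
  have h1 : ‖(i.insertNth 1 y : E (n + 1)) i'‖ ^ 2 ≠ 0 := by positivity
  show Real.log _ = Real.log _ + _
  rw [sum_trans i i' y h, Real.log_div (s_pos y).ne' h1]
  ring

theorem mem_V (i i' : Fin (n + 1)) (y : E n) :
    y ∈ (CP.chart i : Ch n (CP n)).target ∩ (CP.chart i).symm ⁻¹' (CP.chart i').source ↔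
      (i.insertNth 1 y : E (n + 1)) i' ≠ 0 := by
  constructor
  · intro h
    exact (CP.mem_source_chart i' _ (CP.ins_ne i y)).1 h.2
  · intro h
    exact ⟨mem_univ _, (CP.mem_source_chart i' _ (CP.ins_ne i y)).2 h⟩

theorem analytic_Z (i i' : Fin (n + 1)) (y : E n) :
    AnalyticAt ℂ (fun z : E n => (i.insertNth 1 z : E (n + 1)) i') y :=
  ((contDiff_pi.1 (CP.contDiff_ins (𝕜 := ℂ) (m := ω) i)) i').contDiffAt.analyticAt

theorem isOpen_ne (i i' : Fin (n + 1)) :
    IsOpen {y : E n | (i.insertNth 1 y : E (n + 1)) i' ≠ 0} := by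
  have h1 : Continuous fun z : E n => (i.insertNth 1 z : E (n + 1)) i' :=
    ((contDiff_pi.1 (CP.contDiff_ins (𝕜 := ℂ) (m := 0) i)) i').continuous
  exact isOpen_ne_fun h1 continuous_const

theorem chart_mem (i : Fin (n + 1)) : (CP.chart i : Ch n (CP n)) ∈ atlas (E n) (CP n) :=
  ⟨i, rfl⟩

/-- invariance of the Hessian -/
theorem lev_F_trans (i i' : Fin (n + 1)) (y : E n) (h : (i.insertNth 1 y : E (n + 1)) i' ≠ 0)
    (j k : Fin n) : lev (F n) y j k = ∑ a, ∑ b,
      B4aux.D (CP.chart i : Ch n (CP n)) (CP.chart i') y a j *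
        lev (F n) (CP.chart i' ((CP.chart i).symm y)) a b *
        (starRingEnd ℂ) (B4aux.D (CP.chart i : Ch n (CP n)) (CP.chart i') y b k) := by
  have hz := (mem_V i i' y).2 h
  have hτ : AnalyticAt ℂ (fun y => (CP.chart i' : Ch n (CP n)) ((CP.chart i).symm y)) y :=
    trans_analytic (chart_mem i) (chart_mem i') y hz
  have hnear : F n =ᶠ[𝓝 y] fun z => F n (CP.chart i' ((CP.chart i).symm z)) +
      Real.log (‖(i.insertNth 1 z : E (n + 1)) i'‖ ^ 2) := by
    filter_upwards [(isOpen_ne i i').mem_nhds h] with w hw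
    exact F_trans i i' w hw
  have hτr : ContDiffAt ℝ ∞ (fun y => (CP.chart i' : Ch n (CP n)) ((CP.chart i).symm y)) y :=
    (hτ.contDiffAt (n := ∞)).restrict_scalars ℝ
  have h1 : ContDiffAt ℝ ∞ (fun z => F n (CP.chart i' ((CP.chart i).symm z))) y :=
    (smoothF.contDiffAt).comp y hτr
  have h2 : ContDiffAt ℝ ∞ (fun z => Real.log (‖(i.insertNth 1 z : E (n + 1)) i'‖ ^ 2)) y := by
    have h3 : ContDiffAt ℝ ∞ (fun z : E n => (i.insertNth 1 z : E (n + 1)) i') y :=
      ((analytic_Z i i' y).contDiffAt (n := ∞)).restrict_scalars ℝ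
    have h4 : ContDiffAt ℝ ∞ (fun z : E n => ‖(i.insertNth 1 z : E (n + 1)) i'‖ ^ 2) y :=
      h3.norm_sq ℝ
    exact h4.log (by positivity)
  rw [lev_congr hnear, lev_add (h1.of_le B4aux.le2) (h2.of_le B4aux.le2),
    lev_log_normSq (analytic_Z i i' y) h, add_zero,
    lev_comp (τ := fun y => (CP.chart i' : Ch n (CP n)) ((CP.chart i).symm y)) hτ
      (smoothF.contDiffAt.of_le B4aux.le2)]
  rfl

theorem det_F_trans (i i' : Fin (n + 1)) (y : E n) (h : (i.insertNth 1 y : E (n + 1)) i' ≠ 0) :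
    (lev (F n) y).det = ((‖jac (CP.chart i : Ch n (CP n)) (CP.chart i') y‖ ^ 2 : ℝ) : ℂ) *
      (lev (F n) (CP.chart i' ((CP.chart i).symm y))).det := by
  set D := B4aux.D (CP.chart i : Ch n (CP n)) (CP.chart i') y with hD
  have h1 : lev (F n) y = Dᵀ * lev (F n) (CP.chart i' ((CP.chart i).symm y)) *
      D.map (starRingEnd ℂ) := by
    ext j k
    rw [lev_F_trans i i' y h, Matrix.mul_apply]
    simp only [Matrix.mul_apply, Matrix.transpose_apply, Matrix.map_apply, Finset.sum_mul]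
    rw [Finset.sum_comm]
  have h2 : (D.map (starRingEnd ℂ)).det = (starRingEnd ℂ) D.det := by
    rw [← RingHom.mapMatrix_apply, ← RingHom.map_det]
  rw [h1, Matrix.det_mul, Matrix.det_mul, Matrix.det_transpose, h2, B4aux.det_D]
  have h3 : ((‖jac (CP.chart i : Ch n (CP n)) (CP.chart i') y‖ ^ 2 : ℝ) : ℂ) =
      jac (CP.chart i : Ch n (CP n)) (CP.chart i') y *
        (starRingEnd ℂ) (jac (CP.chart i : Ch n (CP n)) (CP.chart i') y) := by
    rw [Complex.mul_conj, Complex.normSq_eq_norm_sq]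
  rw [h3]
  ring

theorem det_re (y : E n) : (lev (F n) y).det.re = ((1 + ∑ l, ‖y l‖ ^ 2) ^ (n + 1))⁻¹ := by
  have h := det_lev_fs y
  rw [show lev (F n) y = lev (fun z => Real.log (1 + ∑ j, ‖z j‖ ^ 2)) y from rfl, h,
    ← Complex.ofReal_inv, Complex.ofReal_re]

/-- the Jacobian -/
theorem jac_sq (i i' : Fin (n + 1)) (y : E n) (h : (i.insertNth 1 y : E (n + 1)) i' ≠ 0) :
    ‖jac (CP.chart i : Ch n (CP n)) (CP.chart i') y‖ ^ 2 =
      ((‖(i.insertNth 1 y : E (n + 1)) i'‖ ^ 2) ^ (n + 1))⁻¹ := by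
  have h1 := congrArg Complex.re (det_F_trans i i' y h)
  rw [Complex.re_ofReal_mul, det_re, det_re, sum_trans i i' y h, div_pow, inv_div] at h1
  have h2 : (1 + ∑ l, ‖y l‖ ^ 2) ^ (n + 1) ≠ 0 := (pow_pos (s_pos y) _).ne'
  have h3 : (‖(i.insertNth 1 y : E (n + 1)) i'‖ ^ 2) ^ (n + 1) ≠ 0 := by positivity
  rw [inv_eq_one_div, div_eq_iff h2] at h1
  rw [mul_div_assoc', div_mul_cancel₀ _ h2] at h1
  exact eq_inv_of_mul_eq_one_left h1.symm

theorem exp_F (y : E n) : Real.exp (-((n + 1 : ℝ) * Real.log (1 + ∑ j, ‖y j‖ ^ 2))) =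
    ((1 + ∑ l, ‖y l‖ ^ 2) ^ (n + 1))⁻¹ := by
  rw [Real.exp_neg]
  congr 1
  have h1 : (n + 1 : ℝ) * Real.log (1 + ∑ j, ‖y j‖ ^ 2) =
      Real.log ((1 + ∑ j, ‖y j‖ ^ 2) ^ (n + 1)) := by
    rw [Real.log_pow]
    push_cast
    ring
  rw [h1, Real.exp_log (pow_pos (s_pos y) _)]

theorem rpow_F (y : E n) : (1 + ∑ j, ‖y j‖ ^ 2) ^ (-((n : ℝ) + 1)) =
    ((1 + ∑ l, ‖y l‖ ^ 2) ^ (n + 1))⁻¹ := by
  rw [Real.rpow_neg (s_pos y).le]
  congr 1
  rw [← Real.rpow_natCast]
  push_cast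
  rfl

end P12

open P12

/-- `|jac (chart i) (chart i') y|² = |z_{i'}|^{-2(n+1)}`, `z = insertNth i 1 y`: the transition map
is `y ↦ (z_{succAbove i' j}/z_{i'})_j`.  (The Jacobian of projective maps is also offer NU-M0 of
helper63.) -/
theorem isPos_wFS : IsPos 1 (wFS n) := by
  refine ⟨⟨?_, ?_⟩, ?_⟩
  · intro e he
    exact (contDiff_const.mul smoothF).contDiffOn
  · rintro _ ⟨i, rfl⟩ _ ⟨i', rfl⟩ x ⟨hx, hx'⟩
    set y := (CP.chart i : Ch n (CP n)) x with hy
    have hxy : (CP.chart i : Ch n (CP n)).symm y = x := (CP.chart i).left_inv hx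
    have h : (i.insertNth 1 y : E (n + 1)) i' ≠ 0 := by
      rw [← mem_V]
      exact ⟨mem_univ _, by rw [mem_preimage, hxy]; exact hx'⟩
    have h1 := F_trans i i' y h
    rw [hxy] at h1
    show (n + 1 : ℝ) * F n y = (n + 1) * F n (CP.chart i' x) - _
    rw [jac_sq i i' y h, Real.log_inv, Real.log_pow, h1]
    push_cast
    ring
  · intro e he y hy
    rw [lev_wFS]
    have h1 : ((n + 1 : ℝ) : ℂ) • hFS n e y = (n + 1 : ℝ) • hFS n e y := by
      ext j k
      simp
    rw [h1]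
    exact (lev_fs_posDef y).smul (by positivity)

/-- `dvFS` has the same expression in all charts (change of variables; the complement of a chart
is a null set) -/
theorem isDens_dvFS : IsDens (dvFS n) (wFS n) := by
  rintro _ ⟨i, rfl⟩ f hf
  have hφ : Measurable (CP.chart 0 : Ch n (CP n)).symm := by
    have h1 : Continuous (CP.chart 0 : Ch n (CP n)).symm := by
      rw [← continuousOn_univ]
      exact (CP.chart 0 : Ch n (CP n)).continuousOn_invFun
    exact h1.measurable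
  have hw : Measurable fun y : E n => ENNReal.ofReal ((1 + ∑ j, ‖y j‖ ^ 2) ^ (-((n : ℝ) + 1))) := by
    refine ENNReal.measurable_ofReal.comp ?_
    exact (smooth_s.continuous.measurable).pow_const _
  set A : Set (E n) := {y | ((0 : Fin (n + 1)).insertNth 1 y : E (n + 1)) i ≠ 0} with hA
  set A' : Set (E n) := {y | (i.insertNth 1 y : E (n + 1)) 0 ≠ 0} with hA'
  have hAm : MeasurableSet A := (isOpen_ne 0 i).measurableSet
  set τ : E n → E n := fun y => (CP.chart i : Ch n (CP n)) ((CP.chart 0).symm y) with hτ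
  have himg : τ '' A = A' := by
    ext y
    constructor
    · rintro ⟨z, hz, rfl⟩
      have h1 := (mem_V 0 i z).2 hz
      rw [hA', mem_setOf_eq, ← mem_V]
      refine ⟨mem_univ _, ?_⟩
      show (CP.chart i : Ch n (CP n)).symm (CP.chart i ((CP.chart 0).symm z)) ∈
        (CP.chart 0 : Ch n (CP n)).source
      rw [(CP.chart i : Ch n (CP n)).left_inv h1.2]
      exact (CP.chart 0 : Ch n (CP n)).map_target h1.1
    · intro hy
      have h1 := (mem_V i 0 y).2 hy
      refine ⟨(CP.chart 0 : Ch n (CP n)) ((CP.chart i).symm y), ?_, ?_⟩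
      · rw [hA, mem_setOf_eq, ← mem_V]
        refine ⟨mem_univ _, ?_⟩
        rw [mem_preimage, (CP.chart 0 : Ch n (CP n)).left_inv h1.2]
        exact (CP.chart i : Ch n (CP n)).map_target h1.1
      · show (CP.chart i : Ch n (CP n)) ((CP.chart 0).symm _) = y
        rw [(CP.chart 0 : Ch n (CP n)).left_inv h1.2]
        exact (CP.chart i : Ch n (CP n)).right_inv h1.1
  have hinj : InjOn τ A := by
    intro z hz w hw hzw
    have h1 := (mem_V 0 i z).2 hz
    have h2 := (mem_V 0 i w).2 hw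
    have h3 := (CP.chart i : Ch n (CP n)).injOn h1.2 h2.2 hzw
    exact (CP.chart 0 : Ch n (CP n)).symm.injOn h1.1 h2.1 h3
  have hder : ∀ z ∈ A, HasFDerivWithinAt τ ((fderiv ℂ τ z).restrictScalars ℝ) A z := by
    intro z hz
    have h1 := (trans_analytic (chart_mem 0) (chart_mem i) z ((mem_V 0 i z).2 hz)).differentiableAt
    exact (h1.hasFDerivAt.restrictScalars ℝ).hasFDerivWithinAt
  have hnull : volume A'ᶜ = 0 := by
    rcases eq_or_ne i 0 with rfl | hi
    · have : A'ᶜ = ∅ := by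
        rw [hA']
        ext y
        simp
      rw [this, measure_empty]
    · obtain ⟨l, hl⟩ := Fin.exists_succAbove_eq hi.symm
      have : A'ᶜ = {y : E n | y l = 0} := by
        rw [hA']
        ext y
        rw [← hl]
        simp
      rw [this]
      exact Measure.pi_hyperplane _ l 0
  have hlhs : ∫⁻ x in (CP.chart i : Ch n (CP n)).source, f x ∂(dvFS n) =
      ∫⁻ y in A, f ((CP.chart 0 : Ch n (CP n)).symm y) *
        ENNReal.ofReal (((1 + ∑ l, ‖y l‖ ^ 2) ^ (n + 1))⁻¹) := by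
    have hpre : (CP.chart 0 : Ch n (CP n)).symm ⁻¹' (CP.chart i).source = A := by
      ext y
      rw [hA, mem_setOf_eq, ← mem_V]
      exact ⟨fun h => ⟨mem_univ _, h⟩, fun h => h.2⟩
    unfold dvFS
    rw [setLIntegral_map (CP.chart i).open_source.measurableSet hf hφ, hpre,
      setLIntegral_withDensity_eq_setLIntegral_mul _ hw
        (show Measurable fun y : E n => f ((CP.chart 0 : Ch n (CP n)).symm y) from hf.comp hφ) hAm]
    refine setLIntegral_congr_fun hAm fun y hy => ?_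
    show ENNReal.ofReal _ * f _ = _
    rw [rpow_F, mul_comm]
  rw [hlhs]
  have hrhs : ∫⁻ y in (CP.chart i : Ch n (CP n)).target, f ((CP.chart i).symm y) *
      ENNReal.ofReal (Real.exp (-wFS n (CP.chart i) y)) =
      ∫⁻ y in A', f ((CP.chart i).symm y) *
        ENNReal.ofReal (Real.exp (-wFS n (CP.chart i) y)) := by
    rw [CP.chart_target, Measure.restrict_univ]
    rw [← lintegral_add_compl _ (isOpen_ne i 0).measurableSet]
    rw [show ({y : E n | (i.insertNth 1 y : E (n + 1)) 0 ≠ 0}ᶜ) = A'ᶜ from rfl,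
      Measure.restrict_zero_set hnull, lintegral_zero_measure, add_zero]
  rw [hrhs, ← himg, lintegral_image_eq_lintegral_abs_det_fderiv_mul volume hAm hder hinj]
  refine setLIntegral_congr_fun hAm fun y hy => ?_
  have h1 := (mem_V 0 i y).2 hy
  have h2 : |((fderiv ℂ τ y).restrictScalars ℝ).det| =
      ‖jac (CP.chart 0 : Ch n (CP n)) (CP.chart i) y‖ ^ 2 := by
    have h3 : ((fderiv ℂ τ y).restrictScalars ℝ).det =
      LinearMap.det (((fderiv ℂ τ y : E n →L[ℂ] E n) : E n →ₗ[ℂ] E n).restrictScalars ℝ) := rfl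
    rw [h3, LinearMap.det_restrictScalars, Algebra.norm_complex_apply, Complex.normSq_eq_norm_sq,
      abs_of_nonneg (sq_nonneg _)]
    rfl
  show f ((CP.chart 0 : Ch n (CP n)).symm y) * _ = ENNReal.ofReal _ *
    (f ((CP.chart i : Ch n (CP n)).symm (CP.chart i ((CP.chart 0).symm y))) *
      ENNReal.ofReal (Real.exp (-((n + 1 : ℝ) * Real.log (1 + ∑ j, ‖τ y j‖ ^ 2)))))
  rw [h2, (CP.chart i : Ch n (CP n)).left_inv h1.2, exp_F, mul_left_comm,
    ← ENNReal.ofReal_mul (sq_nonneg _)]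
  congr 2
  rw [show (1 + ∑ l, ‖τ y l‖ ^ 2) = (1 + ∑ j, ‖y j‖ ^ 2) /
    ‖((0 : Fin (n + 1)).insertNth 1 y : E (n + 1)) i‖ ^ 2 from sum_trans 0 i y hy,
    jac_sq 0 i y hy, div_pow, inv_div]
  have h4 : (‖((0 : Fin (n + 1)).insertNth 1 y : E (n + 1)) i‖ ^ 2) ^ (n + 1) ≠ 0 := by
    have : ((0 : Fin (n + 1)).insertNth 1 y : E (n + 1)) i ≠ 0 := hy
    positivity
  have h5 : (1 + ∑ l, ‖y l‖ ^ 2) ^ (n + 1) ≠ 0 := (pow_pos (s_pos y) _).ne'
  field_simp

theorem isVol_dvFS : IsVol (hFS n) (dvFS n) := by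
  intro e he f hf
  rw [isDens_dvFS e he f hf]
  refine setLIntegral_congr_fun e.open_target.measurableSet fun y hy => ?_
  show f _ * ENNReal.ofReal (Real.exp (-((n + 1 : ℝ) * Real.log (1 + ∑ j, ‖y j‖ ^ 2)))) =
    f _ * ENNReal.ofReal (lev (F n) y).det.re
  rw [exp_F, det_re]

theorem isKahler_hFS : IsKahler (hFS n) := by
  refine ⟨?_, ?_, ?_, ?_⟩
  · intro e he j k
    exact contDiffOn_lev e.open_target (smoothF (n := n)).contDiffOn j k
  · intro e he y hy
    exact lev_fs_posDef y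
  · rintro _ ⟨i, rfl⟩ _ ⟨i', rfl⟩ x ⟨hx, hx'⟩ v w
    set y := (CP.chart i : Ch n (CP n)) x with hy
    have hxy : (CP.chart i : Ch n (CP n)).symm y = x := (CP.chart i).left_inv hx
    have h : (i.insertNth 1 y : E (n + 1)) i' ≠ 0 := by
      rw [← mem_V]
      exact ⟨mem_univ _, by rw [mem_preimage, hxy]; exact hx'⟩
    have hD : ∀ (v : E n) (a : Fin n),
        (fderiv ℂ (fun z => (CP.chart i' : Ch n (CP n)) ((CP.chart i).symm z)) y v) a =
        ∑ j, B4aux.D (CP.chart i : Ch n (CP n)) (CP.chart i') y a j * v j := by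
      intro v a
      have hv : v = ∑ j, v j • (Pi.single j (1 : ℂ) : E n) := by
        funext a
        simp [Finset.sum_apply, Pi.single_apply]
      conv_lhs => rw [hv]
      rw [map_sum, Finset.sum_apply]
      refine Finset.sum_congr rfl fun j _ => ?_
      rw [map_smul, Pi.smul_apply, smul_eq_mul, mul_comm]
      rfl
    show ∑ j, ∑ k, lev (F n) y j k * v j * (starRingEnd ℂ) (w k) =
      ∑ a, ∑ b, lev (F n) (CP.chart i' x) a b * _ * (starRingEnd ℂ) _
    simp_rw [hD, lev_F_trans i i' y h, hxy, map_sum, map_mul]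
    have e1 : ∀ t : Fin n → Fin n → Fin n → Fin n → ℂ, ∑ j, ∑ k, ∑ a, ∑ b, t j k a b =
        ∑ a, ∑ b, ∑ j, ∑ k, t j k a b := by
      intro t
      have h1 : ∑ p : Fin n × Fin n, ∑ q : Fin n × Fin n, t p.1 p.2 q.1 q.2 =
          ∑ q : Fin n × Fin n, ∑ p : Fin n × Fin n, t p.1 p.2 q.1 q.2 := Finset.sum_comm
      simpa only [Fintype.sum_prod_type] using h1
    simp_rw [Finset.sum_mul]
    rw [e1]
    refine Finset.sum_congr rfl fun a _ => Finset.sum_congr rfl fun b _ => ?_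
    rw [mul_assoc, Finset.sum_mul_sum, Finset.mul_sum]
    refine Finset.sum_congr rfl fun j _ => ?_
    rw [Finset.mul_sum]
    refine Finset.sum_congr rfl fun k _ => ?_
    ring
  · intro e he y hy j k l
    exact dz_lev_symm isOpen_univ (smoothF (n := n)).contDiffOn (mem_univ y) j k l

theorem hFS_eq : ∀ e ∈ atlas (E n) (CP n), ∀ y ∈ e.target,
    hFS n e y = ((2 * (1 / (2 * ((n : ℝ) + 1))) : ℝ) : ℂ) • lev (wFS n e) y := by
  intro e he y hy
  rw [lev_wFS, smul_smul, ← Complex.ofReal_mul]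
  have h1 : (2 * (1 / (2 * ((n : ℝ) + 1))) * (n + 1 : ℝ)) = 1 := by
    have : (n : ℝ) + 1 ≠ 0 := by positivity
    field_simp
  rw [h1, Complex.ofReal_one, one_smul]

theorem inClass_hFS : InClass (1 / (2 * ((n : ℝ) + 1))) (hFS n) :=
  ⟨wFS n, isPos_wFS.toIsWeight, hFS_eq⟩

theorem dl_wFS (x : CP n) : dl (wFS n) x = ((n : ℝ) + 1) ^ n := by
  set y := chartAt (E n) x x with hy
  show (lev (wFS n (chartAt (E n) x)) y).det.re *
    Real.exp ((n + 1 : ℝ) * Real.log (1 + ∑ j, ‖y j‖ ^ 2)) = _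
  have h1 := exp_F y
  rw [Real.exp_neg, inv_inj] at h1
  rw [lev_wFS, Matrix.det_smul, Fintype.card_fin, h1, ← Complex.ofReal_pow,
    Complex.re_ofReal_mul]
  show _ * (lev (F n) y).det.re * _ = _
  rw [det_re, mul_assoc, inv_mul_cancel₀ (pow_pos (s_pos y) _).ne', mul_one]

/-- `log det h = -(n+1) log (1 + |y|²)` -/
theorem scal_hFS (x : CP n) : scal (hFS n) x = 4 * n * (n + 1) := by
  set y := chartAt (E n) x x with hy
  have h1 : (fun z => Real.log (hFS n (chartAt (E n) x) z).det.re) =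
      fun z => (-(n + 1 : ℝ)) * F n z := by
    funext z
    show Real.log (lev (F n) z).det.re = _
    rw [det_re, Real.log_inv, Real.log_pow]
    push_cast
    ring
  have h2 : lev (fun z => Real.log (hFS n (chartAt (E n) x) z).det.re) y =
      ((-(n + 1 : ℝ) : ℝ) : ℂ) • lev (F n) y := by
    rw [h1]
    exact lev_const_mul _ (smoothF.contDiffAt.of_le B4aux.le2)
  show -4 * (∑ j, ∑ k, (lev (F n) y)⁻¹ k j *
    lev (fun z => Real.log (hFS n (chartAt (E n) x) z).det.re) y j k).re = _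
  have hdet : IsUnit (lev (F n) y).det := (lev_fs_posDef y).det_pos.ne'.isUnit
  have h3 : ∑ j, ∑ k, (lev (F n) y)⁻¹ k j *
      lev (fun z => Real.log (hFS n (chartAt (E n) x) z).det.re) y j k =
      ((-(n + 1 : ℝ) * n : ℝ) : ℂ) := by
    rw [h2]
    have h4 : ∑ j, ∑ k, (lev (F n) y)⁻¹ k j * lev (F n) y j k = n := by
      have h5 : ((lev (F n) y)⁻¹ * lev (F n) y).trace = n := by
        rw [Matrix.nonsing_inv_mul _ hdet, Matrix.trace_one, Fintype.card_fin]
      rw [← h5, Matrix.trace, Finset.sum_comm]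
      rfl
    rw [Complex.ofReal_mul, Complex.ofReal_natCast, ← h4, Finset.mul_sum]
    refine Finset.sum_congr rfl fun j _ => ?_
    rw [Finset.mul_sum]
    refine Finset.sum_congr rfl fun k _ => ?_
    rw [Matrix.smul_apply, smul_eq_mul]
    ring
  rw [h3, Complex.ofReal_re]
  ring

end Pool.Agent.helper63.NU
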