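import Pool.Agent.helper41.NU.A1
import Pool.Agent.helper69.NU.A9

set_option autoImplicit false

/-! Module F1, part a: iterated partial derivatives of holomorphic functions. -/

open MeasureTheory Filter Topology Set
open scoped ContDiff Manifold Matrix ENNReal ComplexOrder

noncomputable section

namespace Pool.Agent.helper63.NU.F1

variable {n : ℕ}

/-- iterated `∂/∂z` along a list -/
def PD : List (Fin n) → (E n → ℂ) → E n → ℂ
  | [], f => f
  | a :: l, f => dz a (PD l f)

theorem dz_eq {U : Set (E n)} (hU : IsOpen U) {f : E n → ℂ} (hf : DifferentiableOn ℂ f U)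
    (a : Fin n) : Set.EqOn (dz a f) (fun y => fderiv ℂ f y (Pi.single a 1)) U := fun y hy =>
  dz_hol ((hf y hy).differentiableAt (hU.mem_nhds hy)) a

theorem fderiv_app_diff {U : Set (E n)} (hU : IsOpen U) {f : E n → ℂ}
    (hf : DifferentiableOn ℂ f U) (v : E n) :
    DifferentiableOn ℂ (fun y => fderiv ℂ f y v) U := by
  have h := (osgood hU hf).fderiv
  intro y hy
  have h1 : DifferentiableAt ℂ (fderiv ℂ f) y := (h y hy).differentiableAt
  exact (h1.clm_apply (differentiableAt_const v)).differentiableWithinAt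

theorem dz_holo {U : Set (E n)} (hU : IsOpen U) {f : E n → ℂ} (hf : DifferentiableOn ℂ f U)
    (a : Fin n) : DifferentiableOn ℂ (dz a f) U :=
  (fderiv_app_diff hU hf _).congr (dz_eq hU hf a)

theorem PD_holo {U : Set (E n)} (hU : IsOpen U) {f : E n → ℂ} (hf : DifferentiableOn ℂ f U)
    (l : List (Fin n)) : DifferentiableOn ℂ (PD l f) U := by
  induction l with
  | nil => exact hf
  | cons a l ih => exact dz_holo hU ih a

theorem dz_eqOn {U : Set (E n)} (hU : IsOpen U) {f g : E n → ℂ} (h : Set.EqOn f g U)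
    (a : Fin n) : Set.EqOn (dz a f) (dz a g) U := fun y hy =>
  dz_congr (h.eventuallyEq_of_mem (hU.mem_nhds hy)) a

theorem dz_comm {U : Set (E n)} (hU : IsOpen U) {f : E n → ℂ} (hf : DifferentiableOn ℂ f U)
    (a b : Fin n) : Set.EqOn (dz a (dz b f)) (dz b (dz a f)) U := by
  have key : ∀ a b : Fin n, ∀ y ∈ U, dz a (dz b f) y
      = fderiv ℂ (fderiv ℂ f) y (Pi.single a 1) (Pi.single b 1) := by
    intro a b y hy
    rw [dz_eq hU (dz_holo hU hf b) a hy]
    have h1 : dz b f =ᶠ[𝓝 y] (fun y => fderiv ℂ f y (Pi.single b 1)) :=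
      (dz_eq hU hf b).eventuallyEq_of_mem (hU.mem_nhds hy)
    have h2 : DifferentiableAt ℂ (fderiv ℂ f) y := ((osgood hU hf).fderiv y hy).differentiableAt
    show fderiv ℂ (dz b f) y (Pi.single a 1) = _
    rw [h1.fderiv_eq, fderiv_clm_apply h2 (differentiableAt_const _)]
    simp
  intro y hy
  rw [key a b y hy, key b a y hy]
  have h3 : ContDiffAt ℂ ω f y := ((osgood hU hf) y hy).contDiffAt
  have h4 : IsSymmSndFDerivAt ℂ f y := h3.isSymmSndFDerivAt (by simp)
  exact h4.eq _ _

theorem PD_perm {U : Set (E n)} (hU : IsOpen U) {f : E n → ℂ} (hf : DifferentiableOn ℂ f U)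
    {l l' : List (Fin n)} (h : l.Perm l') : Set.EqOn (PD l f) (PD l' f) U := by
  induction h with
  | nil => exact fun _ _ => rfl
  | cons a _ ih => exact dz_eqOn hU ih a
  | swap a b l => exact dz_comm hU (PD_holo hU hf l) b a
  | trans _ _ ih1 ih2 => exact ih1.trans ih2

theorem PD_sum {U : Set (E n)} (hU : IsOpen U) {ι : Type*} [Fintype ι] {b : ι → E n → ℂ}
    (hb : ∀ j, DifferentiableOn ℂ (b j) U) (c : ι → ℂ) (l : List (Fin n)) :
    Set.EqOn (PD l (fun y => ∑ j, c j * b j y)) (fun y => ∑ j, c j * PD l (b j) y) U := by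
  induction l with
  | nil => exact fun _ _ => rfl
  | cons a l ih =>
    intro y hy
    have h1 := dz_eqOn hU ih a hy
    show dz a (PD l _) y = _
    rw [h1]
    have hd : ∀ j, DifferentiableAt ℝ (PD l (b j)) y := fun j =>
      (((PD_holo hU (hb j) l) y hy).differentiableAt (hU.mem_nhds hy)).restrictScalars ℝ
    rw [dz_sum Finset.univ (f := fun j y => c j * PD l (b j) y)
      (fun j _ => (hd j).const_mul (c j)) a]
    exact Finset.sum_congr rfl fun j _ => dz_const_mul _ _ _ _

/-- exponents -/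
abbrev Ex (n : ℕ) : Type := Fin n → ℕ

/-- a list with the given multiplicities -/
def lst (β : Ex n) : List (Fin n) := (List.finRange n).flatMap fun a => List.replicate (β a) a

theorem count_lst (β : Ex n) (a : Fin n) : (lst β).count a = β a := by
  unfold lst
  rw [List.count_flatMap]
  have h : (List.count a ∘ fun c : Fin n => List.replicate (β c) c)
      = fun c => if c = a then β c else 0 := by
    funext c
    simp [List.count_replicate]
  rw [h, ← List.ofFn_eq_map, List.sum_ofFn]
  simp

/-- `D β f`, the iterated derivative of multi-index `β` -/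
def D (β : Ex n) (f : E n → ℂ) : E n → ℂ := PD (lst β) f

theorem D_eq {U : Set (E n)} (hU : IsOpen U) {f : E n → ℂ} (hf : DifferentiableOn ℂ f U)
    {l : List (Fin n)} {β : Ex n} (h : ∀ a, l.count a = β a) :
    Set.EqOn (PD l f) (D β f) U :=
  PD_perm hU hf (List.perm_iff_count.2 fun a => by rw [h, count_lst])

theorem D_holo {U : Set (E n)} (hU : IsOpen U) {f : E n → ℂ} (hf : DifferentiableOn ℂ f U)
    (β : Ex n) : DifferentiableOn ℂ (D β f) U := PD_holo hU hf _

theorem dz_D {U : Set (E n)} (hU : IsOpen U) {f : E n → ℂ} (hf : DifferentiableOn ℂ f U)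
    (a : Fin n) (β : Ex n) : Set.EqOn (dz a (D β f)) (D (β + Pi.single a 1 : Ex n) f) U := by
  have h : ∀ c, (a :: lst β).count c = (β + Pi.single a 1 : Ex n) c := by
    intro c
    rw [List.count_cons, count_lst]
    by_cases hc : a = c
    · subst hc; simp
    · have : ¬ (c = a) := fun h => hc h.symm
      simp [hc, Pi.single_apply, this]
  exact D_eq hU hf h

theorem D_sum {U : Set (E n)} (hU : IsOpen U) {ι : Type*} [Fintype ι] {b : ι → E n → ℂ}
    (hb : ∀ j, DifferentiableOn ℂ (b j) U) (c : ι → ℂ) (β : Ex n) :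
    Set.EqOn (D β (fun y => ∑ j, c j * b j y)) (fun y => ∑ j, c j * D β (b j) y) U :=
  PD_sum hU hb c _

theorem PD_append (l l' : List (Fin n)) (f : E n → ℂ) : PD (l ++ l') f = PD l (PD l' f) := by
  induction l with
  | nil => rfl
  | cons a l ih => show dz a (PD (l ++ l') f) = dz a (PD l (PD l' f)); rw [ih]

theorem tc_eq (m : ℕ) : ∀ (α : Fin m → Fin n) (f : E n → ℂ),
    tc m α f = PD (List.ofFn α).reverse f := by
  induction m with
  | zero => intro α f; simp [tc, PD]
  | succ m ih =>
    intro α f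
    rw [List.ofFn_succ, List.reverse_cons, PD_append]
    show tc m (fun i => α i.succ) (dz (α 0) f) = _
    rw [ih]
    rfl

/-- total degree -/
def deg (β : Ex n) : ℕ := ∑ a, β a

theorem sum_count (l : List (Fin n)) : ∑ a, l.count a = l.length := by
  have := Multiset.toFinset_sum_count_eq (l : Multiset (Fin n))
  rw [← Finset.sum_subset (Finset.subset_univ (l : Multiset (Fin n)).toFinset)] 
  · simpa using this
  · intro a _ ha
    apply List.count_eq_zero.2
    simpa using ha

theorem vanish {U : Set (E n)} (hU : IsOpen U) {f : E n → ℂ} (hf : DifferentiableOn ℂ f U)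
    {p : E n} (hp : p ∈ U) (m : ℕ) (h : ∀ β : Ex n, deg β < m → D β f p = 0) :
    ∃ K : ℝ, ∀ᶠ y in 𝓝 p, ‖f y‖ ≤ K * ‖y - p‖ ^ m := by
  refine vanish_of_tc hU hf hp m fun l hl α => ?_
  rw [tc_eq]
  rw [D_eq hU hf (β := fun a => (List.ofFn α).reverse.count a) (fun a => rfl) hp]
  apply h
  rw [deg, sum_count]
  simpa using hl

theorem zero_near {U : Set (E n)} (hU : IsOpen U) {f : E n → ℂ} (hf : DifferentiableOn ℂ f U)
    {p : E n} (hp : p ∈ U) (h : ∀ β : Ex n, D β f p = 0) : ∀ᶠ y in 𝓝 p, f y = 0 := by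
  refine eq_zero_of_tc hU hf hp fun l α => ?_
  rw [tc_eq, D_eq hU hf (β := fun a => (List.ofFn α).reverse.count a) (fun a => rfl) hp]
  exact h _

end Pool.Agent.helper63.NU.F1
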