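import Pool.Agent.helper59.NU.F1a

set_option autoImplicit false

/-! Module F1, part b: minimal systems of exponents. -/

open MeasureTheory Filter Topology Set
open scoped ContDiff Manifold Matrix ENNReal ComplexOrder

noncomputable section

namespace Pool.Agent.helper63.NU.F1

variable {n : ℕ}

/-- the number with the digits `β` -/
def dig (B : ℕ) (β : Ex n) : ℕ := ∑ a, β a * B ^ (a : ℕ)

/-- the weight of an exponent -/
def w (B : ℕ) (β : Ex n) : ℕ := deg β * B ^ n + dig B β

theorem le_deg (β : Ex n) (a : Fin n) : β a ≤ deg β :=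
  Finset.single_le_sum (f := β) (fun _ _ => Nat.zero_le _) (Finset.mem_univ a)

theorem dig_eq {B : ℕ} {β : Ex n} (h : deg β < B) :
    dig B β = (finFunctionFinEquiv (fun a => (⟨β a, (le_deg β a).trans_lt h⟩ : Fin B)) : ℕ) := by
  rw [finFunctionFinEquiv_apply]; rfl

theorem dig_lt {B : ℕ} {β : Ex n} (h : deg β < B) : dig B β < B ^ n := by
  rw [dig_eq h]; exact (finFunctionFinEquiv _).2

theorem dig_inj {B : ℕ} {β γ : Ex n} (h : deg β < B) (h' : deg γ < B)
    (e : dig B β = dig B γ) : β = γ := by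
  rw [dig_eq h, dig_eq h'] at e
  have := finFunctionFinEquiv.injective (Fin.ext e)
  funext a
  exact congrArg Fin.val (congrFun this a)

theorem w_lt {B : ℕ} {β γ : Ex n} (h : deg β < deg γ) (hB : deg β < B) : w B β < w B γ := by
  unfold w
  have h1 := dig_lt hB
  have h2 : (deg β + 1) * B ^ n ≤ deg γ * B ^ n := Nat.mul_le_mul_right _ h
  have h3 : (deg β + 1) * B ^ n = deg β * B ^ n + B ^ n := by ring
  omega

theorem deg_le {B : ℕ} {β γ : Ex n} (h : w B β ≤ w B γ) (hB : deg γ < B) : deg β ≤ deg γ := by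
  by_contra h'
  push Not at h'
  exact absurd (w_lt h' hB) (by omega)

theorem w_inj {B : ℕ} {β γ : Ex n} (hβ : deg β < B) (hγ : deg γ < B) (h : w B β = w B γ) :
    β = γ := by
  have h1 : deg β = deg γ := le_antisymm (deg_le h.le hγ) (deg_le h.ge hβ)
  refine dig_inj hβ hγ ?_
  unfold w at h
  rw [h1] at h
  omega

theorem deg_add_single (β : Ex n) (a : Fin n) : deg (β + Pi.single a 1 : Ex n) = deg β + 1 := by
  unfold deg
  simp [Finset.sum_add_distrib]

theorem w_add_single (B : ℕ) (β : Ex n) (a : Fin n) :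
    w B (β + Pi.single a 1 : Ex n) = w B β + (B ^ n + B ^ (a : ℕ)) := by
  unfold w
  rw [deg_add_single]
  have h : dig B (β + Pi.single a 1 : Ex n) = dig B β + B ^ (a : ℕ) := by
    unfold dig
    simp [add_mul, Finset.sum_add_distrib, Pi.single_apply]
  rw [h]; ring

/-- the matrix of the derivatives -/
def Mt {k : ℕ} (g : Fin k → E n → ℂ) (ℓ : Fin k → Ex n) (q : E n) : Matrix (Fin k) (Fin k) ℂ :=
  Matrix.of fun i j => D (ℓ i) (g j) q

/-- minimality of the system of exponents `ℓ` at `q` -/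
structure MinAt (B : ℕ) {k : ℕ} (g : Fin k → E n → ℂ) (ℓ : Fin k → Ex n) (q : E n) : Prop where
  det : (Mt g ℓ q).det ≠ 0
  dg : ∀ i, deg (ℓ i) < B
  min : ∀ ℓ' : Fin k → Ex n, (∀ i, deg (ℓ' i) < B) → (Mt g ℓ' q).det ≠ 0 →
    ∑ i, w B (ℓ i) ≤ ∑ i, w B (ℓ' i)

theorem Mt_update {k : ℕ} (g : Fin k → E n → ℂ) (ℓ : Fin k → Ex n) (q : E n) (i : Fin k)
    (β : Ex n) :
    Mt g (Function.update ℓ i β) q = (Mt g ℓ q).updateRow i (fun j => D β (g j) q) := by
  ext i' j
  by_cases h : i' = i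
  · subst h; simp [Mt]
  · simp [Mt, h]

theorem sum_adj {k : ℕ} (A : Matrix (Fin k) (Fin k) ℂ) (i : Fin k) (r : Fin k → ℂ) :
    ∑ j, r j * A.adjugate j i = (A.updateRow i r).det := by
  rw [← Matrix.cramer_transpose_apply, Matrix.cramer_eq_adjugate_mulVec, ← Matrix.adjugate_transpose]
  simp only [Matrix.mulVec, dotProduct, Matrix.transpose_apply]
  exact Finset.sum_congr rfl fun j _ => mul_comm _ _

variable {B k : ℕ} {g : Fin k → E n → ℂ} {ℓ : Fin k → Ex n} {q : E n}

theorem factA (h : MinAt B g ℓ q) {i : Fin k} {β : Ex n} (hβ : w B β < w B (ℓ i)) :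
    ∑ j, D β (g j) q * (Mt g ℓ q).adjugate j i = 0 := by
  by_contra hne
  rw [sum_adj, ← Mt_update] at hne
  have h1 := h.min (Function.update ℓ i β) (fun i' => ?_) hne
  · have h2 : ∑ i', w B (Function.update ℓ i β i') < ∑ i', w B (ℓ i') := by
      refine Finset.sum_lt_sum (fun i' _ => ?_) ⟨i, Finset.mem_univ _, ?_⟩
      · by_cases hi : i' = i
        · subst hi; simpa using hβ.le
        · simp [hi]
      · simpa using hβ
    omega
  · by_cases hi : i' = i
    · subst hi
      simpa using (deg_le hβ.le (h.dg i')).trans_lt (h.dg i')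
    · simpa [hi] using h.dg i'

theorem factA' (g : Fin k → E n → ℂ) (ℓ : Fin k → Ex n) (q : E n) {i i' : Fin k} (hne : i' ≠ i) :
    ∑ j, D (ℓ i') (g j) q * (Mt g ℓ q).adjugate j i = 0 := by
  have h := congrFun (congrFun (Matrix.mul_adjugate (Mt g ℓ q)) i') i
  rw [Matrix.mul_apply] at h
  simpa [Mt, hne] using h

theorem factA'' (g : Fin k → E n → ℂ) (ℓ : Fin k → Ex n) (q : E n) (i : Fin k) :
    ∑ j, D (ℓ i) (g j) q * (Mt g ℓ q).adjugate j i = (Mt g ℓ q).det := by
  have h := congrFun (congrFun (Matrix.mul_adjugate (Mt g ℓ q)) i) i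
  rw [Matrix.mul_apply] at h
  simpa [Mt] using h

theorem lead (h : MinAt B g ℓ q) (v : Fin k → ℂ) {β : Ex n} (hβ : deg β < B)
    (h0 : ∀ γ : Ex n, w B γ < w B β → ∑ j, D γ (g j) q * v j = 0)
    (h1 : ∑ j, D β (g j) q * v j ≠ 0) : ∃ i, ℓ i = β := by
  by_contra hno
  push Not at hno
  set A := Mt g ℓ q with hA
  set r : Fin k → ℂ := fun j => D β (g j) q with hr
  have key : A.det * ∑ j, r j * v j = ∑ i, (∑ j, r j * A.adjugate j i) * (∑ j, A i j * v j) := by
    have e1 : A.adjugate *ᵥ (A *ᵥ v) = A.det • v := by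
      rw [Matrix.mulVec_mulVec, Matrix.adjugate_mul, Matrix.smul_mulVec, Matrix.one_mulVec]
    have e2 : ∀ j, ∑ i, A.adjugate j i * (∑ j, A i j * v j) = A.det * v j := by
      intro j
      have := congrFun e1 j
      simpa [Matrix.mulVec, dotProduct] using this
    calc A.det * ∑ j, r j * v j = ∑ j, r j * (A.det * v j) := by
          rw [Finset.mul_sum]; exact Finset.sum_congr rfl fun j _ => by ring
      _ = ∑ j, r j * ∑ i, A.adjugate j i * (∑ j, A i j * v j) := by simp_rw [e2]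
      _ = ∑ i, (∑ j, r j * A.adjugate j i) * (∑ j, A i j * v j) := by
          simp_rw [Finset.mul_sum (Finset.univ : Finset (Fin k)) _ (r _)]
          rw [Finset.sum_comm]
          refine Finset.sum_congr rfl fun i _ => ?_
          rw [Finset.sum_mul]
          exact Finset.sum_congr rfl fun j _ => by ring
  have hz : ∑ i, (∑ j, r j * A.adjugate j i) * (∑ j, A i j * v j) = 0 := by
    refine Finset.sum_eq_zero fun i _ => ?_
    rcases lt_trichotomy (w B (ℓ i)) (w B β) with hlt | heq | hgt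
    · have : ∑ j, A i j * v j = 0 := h0 (ℓ i) hlt
      rw [this, mul_zero]
    · exact absurd (w_inj (h.dg i) hβ heq) (hno i)
    · have : ∑ j, r j * A.adjugate j i = 0 := factA h hgt
      rw [this, zero_mul]
  rw [hz] at key
  rcases mul_eq_zero.1 key with h2 | h2
  · exact h.det h2
  · exact h1 h2

theorem diff_det {U : Set (E n)} {A : E n → Matrix (Fin k) (Fin k) ℂ}
    (h : ∀ i j, DifferentiableOn ℂ (fun q => A q i j) U) :
    DifferentiableOn ℂ (fun q => (A q).det) U := by
  simp only [Matrix.det_apply]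
  refine DifferentiableOn.fun_sum fun σ _ => ?_
  refine DifferentiableOn.fun_const_smul ?_ _
  intro x hx
  have := HasFDerivWithinAt.finsetProd (u := Finset.univ) (g := fun i q => A q (σ i) i)
    fun i _ => (h (σ i) i x hx).hasFDerivWithinAt
  exact this.differentiableWithinAt.congr (fun y _ => by simp) (by simp)

theorem diff_Mt {U : Set (E n)} (hU : IsOpen U) (hg : ∀ j, DifferentiableOn ℂ (g j) U)
    (ℓ : Fin k → Ex n) : DifferentiableOn ℂ (fun q => (Mt g ℓ q).det) U :=
  diff_det fun i j => D_holo hU (hg j) (ℓ i)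

theorem diff_adj {U : Set (E n)} (hU : IsOpen U) (hg : ∀ j, DifferentiableOn ℂ (g j) U)
    (ℓ : Fin k → Ex n) (i j : Fin k) :
    DifferentiableOn ℂ (fun q => (Mt g ℓ q).adjugate j i) U := by
  simp only [Matrix.adjugate_apply]
  refine diff_det fun a c => ?_
  by_cases h : a = i
  · subst h; simp
  · simp only [Matrix.updateRow_ne h]
    exact D_holo hU (hg c) (ℓ a)

theorem dz_pair {U : Set (E n)} (hU : IsOpen U) (hg : ∀ j, DifferentiableOn ℂ (g j) U)
    (ℓ : Fin k → Ex n) {p : E n} (hp : p ∈ U) (i : Fin k) (a : Fin n) (γ : Ex n)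
    (h : ∀ᶠ q in 𝓝 p, ∑ j, D γ (g j) q * (Mt g ℓ q).adjugate j i = 0) :
    ∑ j, D (γ + Pi.single a 1 : Ex n) (g j) p * (Mt g ℓ p).adjugate j i
      + ∑ j, D γ (g j) p * dz a (fun q => (Mt g ℓ q).adjugate j i) p = 0 := by
  have h1 : dz a (fun q => ∑ j, D γ (g j) q * (Mt g ℓ q).adjugate j i) p = 0 := by
    rw [dz_congr (g := fun _ => 0) h a]
    exact dz_const 0 a p
  have d1 : ∀ j, DifferentiableAt ℝ (D γ (g j)) p := fun j =>
    ((D_holo hU (hg j) γ p hp).differentiableAt (hU.mem_nhds hp)).restrictScalars ℝ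
  have d2 : ∀ j, DifferentiableAt ℝ (fun q => (Mt g ℓ q).adjugate j i) p := fun j =>
    ((diff_adj hU hg ℓ i j p hp).differentiableAt (hU.mem_nhds hp)).restrictScalars ℝ
  rw [dz_sum Finset.univ (f := fun j q => D γ (g j) q * (Mt g ℓ q).adjugate j i)
    (fun j _ => (d1 j).mul (d2 j)) a] at h1
  rw [← Finset.sum_add_distrib, ← h1]
  refine Finset.sum_congr rfl fun j _ => ?_
  rw [dz_mul (d1 j) (d2 j) a, dz_D hU (hg j) a γ hp]

theorem factB {U : Set (E n)} (hU : IsOpen U) (hg : ∀ j, DifferentiableOn ℂ (g j) U)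
    {p : E n} (hp : p ∈ U) (h : ∀ᶠ q in 𝓝 p, MinAt B g ℓ q) {i : Fin k} {β : Ex n} {a : Fin n}
    (hβ : (β + Pi.single a 1 : Ex n) = ℓ i) : ∃ i', ℓ i' = β := by
  have hp' : MinAt B g ℓ p := h.self_of_nhds
  have hwi : w B (ℓ i) = w B β + (B ^ n + B ^ (a : ℕ)) := by rw [← hβ, w_add_single]
  have hdi : deg (ℓ i) = deg β + 1 := by rw [← hβ, deg_add_single]
  have hB : 0 < B := (Nat.zero_le _).trans_lt (hp'.dg i)
  have hlt : w B β < w B (ℓ i) := by
    have : 0 < B ^ n := Nat.pow_pos hB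
    omega
  refine lead hp' (fun j => dz a (fun q => (Mt g ℓ q).adjugate j i) p) (β := β)
    (by have := hp'.dg i; omega) ?_ ?_
  · intro γ hγ
    have h1 := dz_pair hU hg ℓ hp i a γ (h.mono fun q hq => factA hq (hγ.trans hlt))
    have h2 : ∑ j, D (γ + Pi.single a 1 : Ex n) (g j) p * (Mt g ℓ p).adjugate j i = 0 :=
      factA hp' (by rw [w_add_single]; omega)
    rwa [h2, zero_add] at h1
  · have h1 := dz_pair hU hg ℓ hp i a β (h.mono fun q hq => factA hq hlt)
    rw [hβ, factA''] at h1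
    intro h3
    rw [h3, add_zero] at h1
    exact hp'.det h1

theorem ideal {U : Set (E n)} (hU : IsOpen U) (hg : ∀ j, DifferentiableOn ℂ (g j) U)
    {p : E n} (hp : p ∈ U) (h : ∀ᶠ q in 𝓝 p, MinAt B g ℓ q) (β : Ex n) :
    ∀ (m : ℕ) (i : Fin k), deg (ℓ i) = deg β + m → β ≤ ℓ i → ∃ i', ℓ i' = β := by
  intro m
  induction m with
  | zero =>
    intro i hd hle
    refine ⟨i, ?_⟩
    by_contra hne
    have : ∃ a, β a < ℓ i a := by
      by_contra hall
      push Not at hall
      exact hne (le_antisymm hall hle)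
    obtain ⟨a, ha⟩ := this
    have : deg β < deg (ℓ i) := Finset.sum_lt_sum (fun a _ => hle a) ⟨a, Finset.mem_univ _, ha⟩
    omega
  | succ m ih =>
    intro i hd hle
    have : ∃ a, β a < ℓ i a := by
      by_contra hall
      push Not at hall
      have : deg (ℓ i) ≤ deg β := Finset.sum_le_sum fun a _ => hall a
      omega
    obtain ⟨a, ha⟩ := this
    set β' : Ex n := Function.update (ℓ i) a (ℓ i a - 1) with hβ'
    have e : (β' + Pi.single a 1 : Ex n) = ℓ i := by
      funext c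
      by_cases hc : c = a
      · subst hc; simp [hβ']; omega
      · simp [hβ', hc]
    obtain ⟨i', hi'⟩ := factB hU hg hp h e
    refine ih i' ?_ ?_
    · have := deg_add_single β' a
      rw [e] at this
      rw [hi']; omega
    · rw [hi']
      intro c
      by_cases hc : c = a
      · subst hc; simp [hβ']; omega
      · simpa [hβ', hc] using hle c

theorem factC {g' : Fin (k + 1) → E n → ℂ} {ℓ' : Fin (k + 1) → Ex n}
    (h : MinAt B (fun j : Fin k => g' j.castSucc) ℓ q) (h' : MinAt B g' ℓ' q) (i : Fin k) :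
    ∃ i', ℓ' i' = ℓ i := by
  refine lead h' (Fin.snoc (fun j => (Mt (fun j : Fin k => g' j.castSucc) ℓ q).adjugate j i) 0)
    (h.dg i) ?_ ?_
  · intro γ hγ
    rw [Fin.sum_univ_castSucc]
    simpa using factA h hγ
  · rw [Fin.sum_univ_castSucc]
    simpa using (factA'' (fun j : Fin k => g' j.castSucc) ℓ q i).trans_ne h.det

end Pool.Agent.helper63.NU.F1
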